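import Mathlib
import Pool.Agent.E8helper32.SQ.Stm

/-!
# Elliptic monodromy of infinite order
-/

set_option autoImplicit false

open Complex MeasureTheory Metric Set Filter Topology

namespace Pool.Agent.E8helper36.SQ

open Pool.Agent.E8helper32.SQ

lemma pow_dense (κ : ℂ) (h1 : ‖κ‖ = 1) (h2 : ∀ n : ℕ, 0 < n → κ ^ n ≠ 1) (u : ℂ) (hu : ‖u‖ = 1)
    (ε : ℝ) (hε : 0 < ε) : ∃ n : ℕ, ‖κ ^ n - u‖ < ε := by
  have : Fact ((0 : ℝ) < 1) := ⟨one_pos⟩
  set K : Circle := ⟨κ, by simp [Submonoid.unitSphere, h1]⟩ with hK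
  set V : Circle := ⟨u, by simp [Submonoid.unitSphere, hu]⟩ with hV
  set a : AddCircle (1 : ℝ) := (AddCircle.homeomorphCircle one_ne_zero).symm K with ha
  have haK : a.toCircle = K := by
    rw [← AddCircle.homeomorphCircle_apply one_ne_zero]
    exact (AddCircle.homeomorphCircle one_ne_zero).apply_symm_apply K
  have h3 : addOrderOf a = 0 := by
    by_contra h4
    have h5 : 0 < addOrderOf a := Nat.pos_of_ne_zero h4
    have h6 : (addOrderOf a • a).toCircle = 1 := by
      rw [addOrderOf_nsmul_eq_zero]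
      exact AddCircle.toCircle_zero
    rw [AddCircle.toCircle_nsmul, haK] at h6
    have h7 : κ ^ addOrderOf a = 1 := by
      have := congrArg (fun z : Circle => (z : ℂ)) h6
      simpa [hK] using this
    exact h2 _ h5 h7
  have h4 : DenseRange (fun n : ℤ => n • a) := AddCircle.denseRange_zsmul_iff.2 h3
  have h5 : DenseRange (fun n : ℕ => n • a) := denseRange_zsmul_iff_nsmul.1 h4
  have h6 : DenseRange ((AddCircle.toCircle : AddCircle (1 : ℝ) → Circle) ∘
      (fun n : ℕ => n • a)) := by
    refine DenseRange.comp ?_ h5 AddCircle.continuous_toCircle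
    have h8 : (AddCircle.toCircle : AddCircle (1 : ℝ) → Circle) =
        AddCircle.homeomorphCircle one_ne_zero := by
      funext x
      rw [AddCircle.homeomorphCircle_apply]
    rw [h8]
    exact (AddCircle.homeomorphCircle (T := (1 : ℝ)) one_ne_zero).surjective.denseRange
  obtain ⟨n, hn⟩ := Metric.denseRange_iff.1 h6 V ε hε
  refine ⟨n, ?_⟩
  have h7 : dist V ((n • a).toCircle) < ε := hn
  rw [AddCircle.toCircle_nsmul, haK, dist_comm] at h7
  have h8 : dist (K ^ n) V = ‖κ ^ n - u‖ := by
    have h9 : dist (K ^ n) V = dist ((K ^ n : Circle) : ℂ) (V : ℂ) := rfl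
    rw [h9, dist_eq_norm]
    simp [hK, hV]
  rw [h8] at h7
  exact h7

theorem ell : S_ELL := by
  intro L T b1 b2 κ hb hκ hκn hT hmon
  by_cases hconst : ∃ b : ℂ, ∀ σ ∈ HP L, T σ = b
  · exact Or.inl hconst
  right
  have hopen : IsOpen (HP L) := isOpen_lt Complex.continuous_re continuous_const
  have hconv : Convex ℝ (HP L) := by
    have : HP L = Complex.reLm ⁻¹' (Iio L) := rfl
    rw [this]
    exact (convex_Iio L).linear_preimage _
  have hpre : IsPreconnected (HP L) := hconv.isPreconnected
  have han : AnalyticOnNhd ℂ T (HP L) := hT.analyticOnNhd hopen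
  have hκ0 : κ ≠ 0 := by
    intro h
    rw [h] at hκ
    simp at hκ
  have hadd : ∀ (σ : ℂ) (k : ℕ), σ ∈ HP L → σ + k * (2 * Real.pi * I) ∈ HP L := by
    intro σ k hσ
    have : (σ + k * (2 * Real.pi * I)).re = σ.re := by
      simp
    show (σ + k * (2 * Real.pi * I)).re < L
    rw [this]
    exact hσ
  have claim : ∀ σ ∈ HP L, ‖T σ - b1‖ ≠ ‖T σ - b2‖ := by
    intro s0 hs0 heq
    have hT2 : T s0 - b2 ≠ 0 := by
      intro h
      rw [h, norm_zero, norm_eq_zero] at heq
      apply hb
      rw [sub_eq_zero] at h heq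
      rw [← h, ← heq]
    set Y : ℂ → ℂ := fun s => (T s - b1) / (T s - b2) with hY
    have hYan : AnalyticAt ℂ Y s0 :=
      ((han s0 hs0).sub analyticAt_const).div ((han s0 hs0).sub analyticAt_const) hT2
    have hY1 : ‖Y s0‖ = 1 := by
      rw [hY]
      simp only [norm_div]
      rw [heq, div_self (by rwa [norm_ne_zero_iff])]
    have hNev : ∀ᶠ s in 𝓝 s0, s ∈ HP L ∧ T s - b2 ≠ 0 := by
      have hE1 : ∀ᶠ s in 𝓝 s0, s ∈ HP L := hopen.mem_nhds hs0
      exact hE1.and (((han s0 hs0).continuousAt.sub continuousAt_const).eventually_ne hT2)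
    rcases hYan.eventually_constant_or_nhds_le_map_nhds with hc | hop
    · -- locally constant
      have hy0 : Y s0 ≠ 1 := by
        intro h
        have h1 : (T s0 - b1) / (T s0 - b2) = 1 := h
        rw [div_eq_one_iff_eq hT2] at h1
        apply hb
        linear_combination -h1
      have h1 : ∀ᶠ s in 𝓝 s0, T s = T s0 := by
        filter_upwards [hc, hNev] with s h1 h2
        have h3 : T s - b1 = Y s0 * (T s - b2) := by
          rw [← h1]
          exact (div_mul_cancel₀ _ h2.2).symm
        have h4 : T s0 - b1 = Y s0 * (T s0 - b2) := (div_mul_cancel₀ _ hT2).symm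
        have h5 : (1 - Y s0) * (T s - T s0) = 0 := by linear_combination h3 - h4
        rcases mul_eq_zero.1 h5 with h6 | h6
        · exact absurd (sub_eq_zero.1 h6).symm hy0
        · exact sub_eq_zero.1 h6
      have h2 : EqOn T (fun _ => T s0) (HP L) :=
        han.eqOn_of_preconnected_of_eventuallyEq (fun _ _ => analyticAt_const) hpre hs0 h1
      exact hconst ⟨T s0, fun σ hσ => h2 hσ⟩
    · have h1 : Y '' {s | s ∈ HP L ∧ T s - b2 ≠ 0} ∈ 𝓝 (Y s0) :=
        hop (image_mem_map hNev)
      obtain ⟨ε, hε, h2⟩ := Metric.mem_nhds_iff.1 h1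
      have hκi : ‖κ⁻¹‖ = 1 := by rw [norm_inv, hκ, inv_one]
      have hκin : ∀ n : ℕ, 0 < n → κ⁻¹ ^ n ≠ 1 := by
        intro n hn h
        rw [inv_pow, inv_eq_one] at h
        exact hκn n hn h
      obtain ⟨k, hk⟩ := pow_dense κ⁻¹ hκi hκin (Y s0) hY1 ε hε
      have h3 : κ⁻¹ ^ k ∈ ball (Y s0) ε := by
        rw [mem_ball, dist_eq_norm]
        exact hk
      obtain ⟨s, ⟨hs, hs2⟩, hsk⟩ := h2 h3
      have hind : ∀ j : ℕ, T (s + j * (2 * Real.pi * I)) - b2 ≠ 0 ∧
          T (s + j * (2 * Real.pi * I)) - b1 =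
            κ ^ j * Y s * (T (s + j * (2 * Real.pi * I)) - b2) := by
        intro j
        induction j with
        | zero =>
          constructor
          · simpa using hs2
          · simp only [Nat.cast_zero, zero_mul, add_zero, pow_zero, one_mul]
            exact (div_mul_cancel₀ _ hs2).symm
        | succ j ih =>
          have h4 := hmon _ (hadd s j hs)
          have h5 : s + (j : ℂ) * (2 * Real.pi * I) + 2 * Real.pi * I =
              s + ((j + 1 : ℕ) : ℂ) * (2 * Real.pi * I) := by
            push_cast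
            ring
          rw [h5] at h4
          set A := T (s + ((j + 1 : ℕ) : ℂ) * (2 * Real.pi * I)) with hA
          set B := T (s + (j : ℂ) * (2 * Real.pi * I)) with hB
          obtain ⟨ih1, ih2⟩ := ih
          constructor
          · intro h6
            rw [h6, mul_zero, mul_zero] at h4
            rcases mul_eq_zero.1 h4 with h7 | h7
            · apply hb
              linear_combination h6 - h7
            · exact ih1 h7
          · have h6 : (A - b1) * (B - b2) = κ ^ (j + 1) * Y s * (A - b2) * (B - b2) := by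
              rw [h4, ih2]
              ring
            exact mul_right_cancel₀ ih1 h6
      have h6 := (hind k).2
      rw [hsk, ← mul_pow, mul_inv_cancel₀ hκ0, one_pow, one_mul] at h6
      apply hb
      linear_combination -h6
  by_contra hcon
  push Not at hcon
  obtain ⟨⟨σ1, hσ1, h1⟩, ⟨σ2, hσ2, h2⟩⟩ := hcon
  have hcont1 : ContinuousOn (fun σ => ‖T σ - b1‖) (HP L) :=
    (hT.continuousOn.sub continuousOn_const).norm
  have hcont2 : ContinuousOn (fun σ => ‖T σ - b2‖) (HP L) :=
    (hT.continuousOn.sub continuousOn_const).norm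
  obtain ⟨σ, hσ, h3⟩ := hpre.intermediate_value₂ hσ2 hσ1 hcont1 hcont2 h2 h1
  exact claim σ hσ h3

end Pool.Agent.E8helper36.SQ
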