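import Mathlib
import Pool.Agent.E8helper32.SQ.Stm

/-!
# The elliptic case
-/

set_option autoImplicit false

open Complex MeasureTheory Metric Set Filter Topology

namespace Pool.Agent.E8helper36.SQ

open Pool.Agent.E8helper32.SQ

/-- the kernel is entire -/
lemma Kf_diff (a : ℝ) (ha : 0 < a) : Differentiable ℂ (Kf a) := by
  intro y
  set R : ℝ := ‖y‖ + 1 with hR
  have hR0 : 0 < R := by positivity
  have h1 : DifferentiableOn ℂ (Kf a) (ball 0 R) := by
    refine differentiableOn_tsum_of_summable_norm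
      (u := fun l : ℕ => a * ((a * R) ^ l / (l.factorial : ℝ))) ?_ ?_ isOpen_ball ?_
    · exact (Real.summable_pow_div_factorial (a * R)).mul_left a
    · intro l
      fun_prop
    · intro l w hw
      have hw1 : ‖w‖ ≤ R := by
        rw [mem_ball_zero_iff] at hw
        exact hw.le
      rw [norm_div, norm_mul, norm_pow, norm_pow, norm_pow, norm_neg, Complex.norm_real,
        Real.norm_of_nonneg ha.le, Complex.norm_natCast]
      have h1 : (1 : ℝ) ≤ l.factorial := by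
        exact_mod_cast Nat.one_le_iff_ne_zero.mpr (Nat.factorial_ne_zero l)
      have h2 : (l.factorial : ℝ) ≤ (l.factorial : ℝ) ^ 2 := by nlinarith
      have h3 : ‖w‖ ^ l ≤ R ^ l := pow_le_pow_left₀ (norm_nonneg _) hw1 l
      calc a ^ (l + 1) * ‖w‖ ^ l / (l.factorial : ℝ) ^ 2
          ≤ a ^ (l + 1) * R ^ l / (l.factorial : ℝ) := by
            apply div_le_div₀ (by positivity) _ (by positivity) h2
            exact mul_le_mul_of_nonneg_left h3 (by positivity)
        _ = a * ((a * R) ^ l / (l.factorial : ℝ)) := by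
            rw [pow_succ, mul_pow]
            ring
  have h2 : y ∈ ball (0 : ℂ) R := by
    rw [mem_ball_zero_iff]
    linarith
  exact (h1 y h2).differentiableAt (isOpen_ball.mem_nhds h2)

/-- integrals depending holomorphically on a parameter -/
lemma par (R : ℝ) (G G' : ℂ → ℝ → ℂ)
    (hG : ContinuousOn (fun p : ℂ × ℝ => G p.1 p.2) (ball 0 R ×ˢ Icc 0 1))
    (hG' : ContinuousOn (fun p : ℂ × ℝ => G' p.1 p.2) (ball 0 R ×ˢ Icc 0 1))
    (hd : ∀ z ∈ ball (0 : ℂ) R, ∀ s ∈ Icc (0 : ℝ) 1, HasDerivAt (fun z => G z s) (G' z s) z) :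
    DifferentiableOn ℂ (fun z => ∫ s in (0 : ℝ)..1, G z s) (ball 0 R) := by
  intro z0 hz0
  obtain ⟨δ, hδ, hsub⟩ : ∃ δ > 0, closedBall z0 δ ⊆ ball 0 R :=
    Metric.nhds_basis_closedBall.mem_iff.1 (isOpen_ball.mem_nhds hz0)
  have hK : IsCompact (closedBall z0 δ ×ˢ Icc (0 : ℝ) 1) :=
    (isCompact_closedBall z0 δ).prod isCompact_Icc
  have hcont : ContinuousOn (fun p : ℂ × ℝ => G' p.1 p.2) (closedBall z0 δ ×ˢ Icc (0 : ℝ) 1) :=
    hG'.mono (prod_mono hsub subset_rfl)
  obtain ⟨C, hC⟩ := hK.exists_bound_of_continuousOn hcont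
  have hsl : ∀ z ∈ ball (0 : ℂ) R, ContinuousOn (G z) (Icc 0 1) := by
    intro z hz
    exact hG.comp (Continuous.prodMk_right z).continuousOn (fun s hs => ⟨hz, hs⟩)
  have hsl' : ∀ z ∈ ball (0 : ℂ) R, ContinuousOn (G' z) (Icc 0 1) := by
    intro z hz
    exact hG'.comp (Continuous.prodMk_right z).continuousOn (fun s hs => ⟨hz, hs⟩)
  have hIoc : ∀ t : ℝ, t ∈ uIoc (0 : ℝ) 1 → t ∈ Icc (0 : ℝ) 1 := by
    intro t ht
    rw [uIoc_of_le zero_le_one] at ht
    exact Ioc_subset_Icc_self ht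
  have key := intervalIntegral.hasDerivAt_integral_of_dominated_loc_of_deriv_le
    (μ := volume) (a := (0 : ℝ)) (b := 1) (bound := fun _ => C) (F := G) (F' := G') (x₀ := z0)
    (s := closedBall z0 δ) (closedBall_mem_nhds z0 hδ) ?_ ?_ ?_ ?_ ?_ ?_
  · exact key.2.differentiableAt.differentiableWithinAt
  · filter_upwards [isOpen_ball.mem_nhds hz0] with z hz
    rw [uIoc_of_le zero_le_one]
    exact ((hsl z hz).mono Ioc_subset_Icc_self).aestronglyMeasurable measurableSet_Ioc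
  · apply ContinuousOn.intervalIntegrable
    rw [uIcc_of_le zero_le_one]
    exact hsl z0 hz0
  · rw [uIoc_of_le zero_le_one]
    exact ((hsl' z0 hz0).mono Ioc_subset_Icc_self).aestronglyMeasurable measurableSet_Ioc
  · refine Filter.Eventually.of_forall ?_
    intro t ht z hz
    exact hC (z, t) ⟨hz, hIoc t ht⟩
  · exact intervalIntegrable_const
  · refine Filter.Eventually.of_forall ?_
    intro t ht z hz
    exact hd z (hsub hz) t (hIoc t ht)

lemma aux3 (z y c : ℂ) (hz : z ≠ 0) (hc : c ≠ 0) (h : 1 - z * y ≠ 0) :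
    y - c * (z * y) / (1 - z * y) / (c * z) = - (z * y * y / (1 - z * y)) := by
  rw [div_div, eq_neg_iff_add_eq_zero]
  have h2 : c * (z * y) / ((1 - z * y) * (c * z)) = y / (1 - z * y) := by
    rw [div_eq_div_iff (mul_ne_zero h (mul_ne_zero hc hz)) h]
    ring
  rw [h2, sub_add, sub_eq_zero, ← sub_div, eq_div_iff h]
  ring

theorem fan (hlim : S_LIM) : S_FAN := by
  intro a ha x W Y ρ0 c κ hx hW hY hρ0 hYρ0 hW0 hc hκ hκn hint
  -- normalise the bound
  obtain ⟨ρ, hρpos, hρ1, hYρ⟩ : ∃ ρ : ℝ, 0 < ρ ∧ ρ < 1 ∧ ∀ s ∈ Icc (0 : ℝ) 1, ‖Y s‖ ≤ ρ := by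
    refine ⟨max ρ0 (1 / 2), lt_of_lt_of_le (by norm_num) (le_max_right _ _),
      max_lt hρ0 (by norm_num), fun s hs => (hYρ0 s hs).trans (le_max_left _ _)⟩
  set R : ℝ := 1 / ρ with hR
  have hR1 : 1 < R := by
    rw [hR]
    exact one_lt_one_div hρpos hρ1
  have hzY : ∀ z ∈ ball (0 : ℂ) R, ∀ s ∈ Icc (0 : ℝ) 1, 1 - z * Y s ≠ 0 := by
    intro z hz s hs h
    have h1 : z * Y s = 1 := by linear_combination -h
    have h2 : ‖z * Y s‖ = 1 := by rw [h1, norm_one]
    rw [norm_mul] at h2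
    rw [mem_ball_zero_iff] at hz
    have h3 : ‖z‖ * ‖Y s‖ ≤ ‖z‖ * ρ := mul_le_mul_of_nonneg_left (hYρ s hs) (norm_nonneg _)
    have h4 : ‖z‖ * ρ < R * ρ := mul_lt_mul_of_pos_right hz hρpos
    have h5 : R * ρ = 1 := by
      rw [hR]
      field_simp
    linarith
  set G : ℂ → ℝ → ℂ := fun z s => Kf a (x s * (c * (z * Y s) / (1 - z * Y s))) * W s with hG
  set G' : ℂ → ℝ → ℂ := fun z s => deriv (Kf a) (x s * (c * (z * Y s) / (1 - z * Y s))) *
    (x s * (c * Y s / (1 - z * Y s) ^ 2)) * W s with hG'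
  have hKd := Kf_diff a ha
  have hKc : Continuous (Kf a) := hKd.continuous
  have hKc' : Continuous (deriv (Kf a)) := hKd.contDiff.continuous_deriv (n := 1) le_rfl
  have hx2 : ContinuousOn (fun p : ℂ × ℝ => x p.2) (ball 0 R ×ˢ Icc 0 1) :=
    (hx.comp continuous_snd).continuousOn
  have hW2 : ContinuousOn (fun p : ℂ × ℝ => W p.2) (ball 0 R ×ˢ Icc 0 1) :=
    (hW.comp continuous_snd).continuousOn
  have hY2 : ContinuousOn (fun p : ℂ × ℝ => Y p.2) (ball 0 R ×ˢ Icc 0 1) :=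
    hY.comp continuous_snd.continuousOn (fun p hp => hp.2)
  have hz2 : ContinuousOn (fun p : ℂ × ℝ => p.1) (ball (0 : ℂ) R ×ˢ Icc (0 : ℝ) 1) :=
    continuous_fst.continuousOn
  have hden : ContinuousOn (fun p : ℂ × ℝ => 1 - p.1 * Y p.2) (ball 0 R ×ˢ Icc 0 1) :=
    continuousOn_const.sub (hz2.mul hY2)
  have harg : ContinuousOn (fun p : ℂ × ℝ => x p.2 * (c * (p.1 * Y p.2) / (1 - p.1 * Y p.2)))
      (ball 0 R ×ˢ Icc 0 1) := by
    refine hx2.mul (ContinuousOn.div (continuousOn_const.mul (hz2.mul hY2)) hden ?_)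
    intro p hp
    exact hzY p.1 hp.1 p.2 hp.2
  have hGc : ContinuousOn (fun p : ℂ × ℝ => G p.1 p.2) (ball 0 R ×ˢ Icc 0 1) :=
    (hKc.comp_continuousOn harg).mul hW2
  have hGc' : ContinuousOn (fun p : ℂ × ℝ => G' p.1 p.2) (ball 0 R ×ˢ Icc 0 1) := by
    refine ((hKc'.comp_continuousOn harg).mul (hx2.mul
      (ContinuousOn.div (continuousOn_const.mul hY2) (hden.pow 2) ?_))).mul hW2
    intro p hp
    exact pow_ne_zero 2 (hzY p.1 hp.1 p.2 hp.2)
  have hder : ∀ z ∈ ball (0 : ℂ) R, ∀ s ∈ Icc (0 : ℝ) 1,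
      HasDerivAt (fun z => G z s) (G' z s) z := by
    intro z hz s hs
    have h0 := hzY z hz s hs
    have h1 : HasDerivAt (fun z : ℂ => c * (z * Y s)) (c * (1 * Y s)) z :=
      ((hasDerivAt_id z).mul_const (Y s)).const_mul c
    have h2 : HasDerivAt (fun z : ℂ => 1 - z * Y s) (0 - 1 * Y s) z :=
      (hasDerivAt_const z (1 : ℂ)).sub ((hasDerivAt_id z).mul_const (Y s))
    have h3 := (h1.div h2 h0).const_mul (x s)
    have h4 : HasDerivAt (Kf a) (deriv (Kf a) (x s * (c * (z * Y s) / (1 - z * Y s))))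
        (x s * (c * (z * Y s) / (1 - z * Y s))) := (hKd _).hasDerivAt
    have h5 := (h4.comp z h3).mul_const (W s)
    refine HasDerivAt.congr_deriv h5 ?_
    have h6 : (c * (1 * Y s) * (1 - z * Y s) - c * (z * Y s) * (0 - 1 * Y s)) /
        (1 - z * Y s) ^ 2 = c * Y s / (1 - z * Y s) ^ 2 := by
      congr 1
      ring
    rw [h6]
  have hF : DifferentiableOn ℂ (fun z => ∫ s in (0 : ℝ)..1, G z s) (ball 0 R) :=
    par R G G' hGc hGc' hder
  have hFan : AnalyticOnNhd ℂ (fun z => ∫ s in (0 : ℝ)..1, G z s) (ball 0 R) :=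
    hF.analyticOnNhd isOpen_ball
  -- zeros
  have hinj : Function.Injective (fun k : ℕ => κ ^ k) := by
    have hκ0 : κ ≠ 0 := by
      intro h
      rw [h] at hκ
      simp at hκ
    have aux : ∀ i j : ℕ, i < j → κ ^ i ≠ κ ^ j := by
      intro i j hij h
      apply hκn (j - i) (Nat.sub_pos_of_lt hij)
      have h1 : κ ^ j = κ ^ i * κ ^ (j - i) := by
        rw [← pow_add]
        congr 1
        omega
      rw [h1] at h
      have h2 : κ ^ i * (κ ^ (j - i) - 1) = 0 := by linear_combination -h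
      rcases mul_eq_zero.1 h2 with h3 | h3
      · exact absurd h3 (pow_ne_zero _ hκ0)
      · exact sub_eq_zero.1 h3
    intro i j hij
    rcases lt_trichotomy i j with h | h | h
    · exact absurd hij (aux i j h)
    · exact h
    · exact absurd hij.symm (aux j i h)
  have hinf : (range (fun k : ℕ => κ ^ k)).Infinite := infinite_range_of_injective hinj
  have hsubS : range (fun k : ℕ => κ ^ k) ⊆ sphere (0 : ℂ) 1 := by
    rintro _ ⟨k, rfl⟩
    rw [mem_sphere_zero_iff_norm]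
    simp [hκ]
  obtain ⟨u, hu, hacc⟩ := hinf.exists_accPt_of_subset_isCompact (isCompact_sphere (0 : ℂ) 1) hsubS
  have huR : u ∈ ball (0 : ℂ) R := by
    rw [mem_sphere_zero_iff_norm] at hu
    rw [mem_ball_zero_iff, hu]
    exact hR1
  have hfreq : ∃ᶠ z in 𝓝[≠] u, (∫ s in (0 : ℝ)..1, G z s) = 0 := by
    rw [accPt_iff_frequently] at hacc
    rw [frequently_nhdsWithin_iff]
    refine hacc.mono ?_
    rintro z ⟨hz1, k, rfl⟩
    exact ⟨hint k, hz1⟩
  have hzero := hFan.eqOn_zero_of_preconnected_of_frequently_eq_zero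
    (convex_ball (0 : ℂ) R).isPreconnected huR hfreq
  -- apply the first order statement
  set zk : ℕ → ℂ := fun k => ((1 / ((k : ℝ) + 2) : ℝ) : ℂ) with hzk
  have hzkn : ∀ k, ‖zk k‖ = 1 / ((k : ℝ) + 2) := by
    intro k
    rw [hzk]
    simp only
    rw [Complex.norm_real, Real.norm_of_nonneg (by positivity)]
  have hzk2 : ∀ k, ‖zk k‖ ≤ 1 / 2 := by
    intro k
    rw [hzkn]
    apply one_div_le_one_div_of_le (by norm_num)
    have : (0 : ℝ) ≤ k := Nat.cast_nonneg k
    linarith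
  have hzkR : ∀ k, zk k ∈ ball (0 : ℂ) R := by
    intro k
    rw [mem_ball_zero_iff]
    have := hzk2 k
    linarith
  have hzk0 : ∀ k, zk k ≠ 0 := by
    intro k h
    have h1 := hzkn k
    rw [h, norm_zero] at h1
    have : (0 : ℝ) < 1 / ((k : ℝ) + 2) := by positivity
    linarith
  have hzlim : Tendsto (fun k : ℕ => 1 / ((k : ℝ) + 2)) atTop (𝓝 0) := by
    have h1 : Tendsto (fun k : ℕ => (k : ℝ) + 2) atTop atTop :=
      tendsto_atTop_add_const_right _ _ tendsto_natCast_atTop_atTop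
    refine h1.inv_tendsto_atTop.congr ?_
    intro k
    simp
  refine hlim a ha x W Y (fun k s => c * (zk k * Y s) / (1 - zk k * Y s)) (fun k => c * zk k)
    hx hW hY ?_ hW0 ?_ ?_ ?_ ?_
  · intro k
    refine ContinuousOn.div (continuousOn_const.mul (continuousOn_const.mul hY))
      (continuousOn_const.sub (continuousOn_const.mul hY)) ?_
    intro s hs
    exact hzY _ (hzkR k) s hs
  · intro k
    exact hzero (hzkR k)
  · intro k
    exact mul_ne_zero hc (hzk0 k)
  · have h1 : Tendsto zk atTop (𝓝 0) := by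
      rw [tendsto_zero_iff_norm_tendsto_zero]
      simpa only [hzkn] using hzlim
    simpa using h1.const_mul c
  · rw [Metric.tendstoUniformlyOn_iff]
    intro ε hε
    have h1 : ∀ᶠ k : ℕ in atTop, 1 / ((k : ℝ) + 2) < ε / 2 :=
      hzlim.eventually (gt_mem_nhds (by positivity))
    filter_upwards [h1] with k hk s hs
    have h2 := hzY _ (hzkR k) s hs
    have h3 : Y s - c * (zk k * Y s) / (1 - zk k * Y s) / (c * zk k) =
        - (zk k * Y s * Y s / (1 - zk k * Y s)) :=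
      aux3 _ _ _ (hzk0 k) hc h2
    rw [dist_eq_norm, h3, norm_neg, norm_div, norm_mul, norm_mul]
    have h4 : ‖zk k * Y s‖ ≤ 1 / 2 := by
      rw [norm_mul]
      have h5 : ‖Y s‖ ≤ 1 := (hYρ s hs).trans hρ1.le
      calc ‖zk k‖ * ‖Y s‖ ≤ 1 / 2 * 1 :=
            mul_le_mul (hzk2 k) h5 (norm_nonneg _) (by norm_num)
        _ = 1 / 2 := by norm_num
    have h5 : 1 / 2 ≤ ‖1 - zk k * Y s‖ := by
      have h6 := norm_sub_norm_le (1 : ℂ) (zk k * Y s)
      rw [norm_one] at h6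
      linarith
    have h6 : ‖zk k‖ * ‖Y s‖ * ‖Y s‖ ≤ ‖zk k‖ := by
      have h7 : ‖Y s‖ ≤ 1 := (hYρ s hs).trans hρ1.le
      have h8 : 0 ≤ ‖Y s‖ := norm_nonneg _
      have h9 : ‖Y s‖ * ‖Y s‖ ≤ 1 := by nlinarith
      rw [mul_assoc]
      exact mul_le_of_le_one_right (norm_nonneg _) h9
    rw [div_lt_iff₀ (by linarith)]
    have h7 := hzkn k
    nlinarith

end Pool.Agent.E8helper36.SQ
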