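import Mathlib
import Pool.Agent.E8helper32.SQ.Stm

/-!
# Isolated points of countable closed sets, connectedness, countability of zeros
-/

set_option autoImplicit false

open Complex MeasureTheory Metric Set Filter Topology

namespace Pool.Agent.E8helper36.SQ

open Pool.Agent.E8helper32.SQ

theorem iso : S_ISO := by
  intro U A hU hAU hUA hA hne
  have hlc : IsLocallyClosed A := by
    have h1 : A = U ∩ (U \ A)ᶜ := by
      ext y
      constructor
      · intro hy
        exact ⟨hAU hy, fun h => h.2 hy⟩
      · rintro ⟨h1, h2⟩
        by_contra h3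
        exact h2 ⟨h1, h3⟩
    rw [h1]
    exact hU.isLocallyClosed.inter hUA.isClosed_compl.isLocallyClosed
  have : LocallyCompactSpace A := hlc.locallyCompactSpace
  have : Countable A := hA.to_subtype
  have : Nonempty A := hne.to_subtype
  have h2 : ∃ i : A, (interior ({i} : Set A)).Nonempty := by
    refine nonempty_interior_of_iUnion_of_closed (f := fun a : A => ({a} : Set A))
      (fun a => isClosed_singleton) ?_
    ext a
    simp
  obtain ⟨x, y, hy⟩ := h2
  have hyx : y = x := by
    have := interior_subset hy
    simpa using this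
  subst hyx
  have h3 : ({y} : Set A) ∈ 𝓝 y := mem_interior_iff_mem_nhds.1 hy
  obtain ⟨ε, hε, h4⟩ := Metric.mem_nhds_iff.1 h3
  refine ⟨y, y.2, ε, hε, ?_⟩
  intro z hz hzA
  have h5 : (⟨z, hzA⟩ : A) ∈ ball y ε := by
    rw [mem_ball, Subtype.dist_eq]
    exact hz
  have h6 := h4 h5
  have h7 : (⟨z, hzA⟩ : A) = y := by simpa using h6
  exact congrArg Subtype.val h7

theorem conn : S_CONN := by
  intro c ρ A hA
  rcases le_or_gt ρ 0 with hρ | hρ
  · rw [ball_eq_empty.2 hρ, empty_sdiff]
    exact isPreconnected_empty
  · set e := OpenPartialHomeomorph.univBall (E := ℂ) c ρ with he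
    have hsrc : e.source = univ := OpenPartialHomeomorph.univBall_source c ρ
    have htgt : e.target = ball c ρ := OpenPartialHomeomorph.univBall_target c hρ
    have hinj : InjOn e univ := by
      rw [← hsrc]
      exact e.injOn
    have hcnt : (e ⁻¹' A).Countable := by
      have : (univ ∩ e ⁻¹' A).Countable := by
        refine MapsTo.countable_of_injOn (f := e) (t := A) ?_ (hinj.mono inter_subset_left) hA
        intro z hz
        exact hz.2
      simpa using this
    have h1 : IsPreconnected (e ⁻¹' A)ᶜ := by
      have hr : 1 < Module.rank ℝ ℂ := by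
        rw [Complex.rank_real_complex]
        exact Cardinal.one_lt_two
      exact (hcnt.isConnected_compl_of_one_lt_rank hr).isPreconnected
    have h2 : ball c ρ \ A = e '' (e ⁻¹' A)ᶜ := by
      ext z
      constructor
      · rintro ⟨h3, h4⟩
        have h5 : z ∈ e.target := by rw [htgt]; exact h3
        refine ⟨e.symm z, ?_, e.right_inv h5⟩
        intro h6
        have h7 : e (e.symm z) ∈ A := h6
        rw [e.right_inv h5] at h7
        exact h4 h7
      · rintro ⟨w, hw, rfl⟩
        have h5 : e w ∈ e.target := e.map_source (by rw [hsrc]; trivial)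
        rw [htgt] at h5
        exact ⟨h5, hw⟩
    rw [h2]
    exact h1.image _ (OpenPartialHomeomorph.continuous_univBall c ρ).continuousOn

theorem cnt : S_CNT := by
  intro c ρ f hf hz
  obtain ⟨w, hw, hfw⟩ := hz
  set Z : Set ℂ := {z | z ∈ ball c ρ ∧ f z = 0} with hZ
  have han : AnalyticOnNhd ℂ f (ball c ρ) := hf.analyticOnNhd isOpen_ball
  have hdisc : DiscreteTopology Z := by
    rw [discreteTopology_subtype_iff]
    intro x hx
    rw [← disjoint_iff, disjoint_principal_right]
    have h1 : ∀ᶠ z in 𝓝[≠] x, f z ≠ 0 := by
      by_contra h2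
      have h3 : ∃ᶠ z in 𝓝[≠] x, f z = 0 := by
        rw [Filter.not_eventually] at h2
        exact h2.mono (fun z hz => not_not.1 hz)
      have h4 := han.eqOn_zero_of_preconnected_of_frequently_eq_zero
        (convex_ball c ρ).isPreconnected hx.1 h3
      exact hfw (h4 hw)
    filter_upwards [h1] with z hz hzZ
    exact hz hzZ.2
  have : Countable Z := TopologicalSpace.separableSpace_iff_countable.1 inferInstance
  exact Set.countable_coe_iff.1 inferInstance

end Pool.Agent.E8helper36.SQ
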